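import Pool.Agent.Helper40.HV.DIP
import Pool.Agent.Helper26.HW.Stmts

set_option autoImplicit false

namespace Pool.Agent.Helper64.HW

open MeasureTheory Filter Topology Pool.Agent.Helper95 Pool.Agent.Helper95.PW
  Pool.Agent.Helper95.LN Pool.Agent.Helper95.CF
open Pool.Agent.Helper95.HV Pool.Agent.Helper26.HW Pool.Agent.Helper40.HV
open Pool.Agent.Helper84.LN (eid_cd)
open Pool.Agent.Helper64.HS (nr_tri nr_comm)

theorem die_int (h1 : ST_PHA) (h2 : ST_PHB) {b : ℝ} (hb : 0 < b) (v x u y : R3) :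
    Integrable (fun w => ∑ m, pd m (Pv b v x) w * pd m (Pv b u y) w) := by
  obtain ⟨A, -, hA⟩ := Pv_dec h1 h2 hb v x
  obtain ⟨B, -, hB⟩ := Pv_dec h1 h2 hb u y
  exact integrable_finsetSum _ fun m _ => dip_int (eid_cd m (Pv_cd h1 hb v x)).continuous
    (eid_cd m (Pv_cd h1 hb u y)).continuous (hA m) (hB m)

theorem die_add (h1 : ST_PHA) (h2 : ST_PHB) {b : ℝ} (hb : 0 < b) (v v' x u y : R3) :
    Iv b (v + v') x u y = Iv b v x u y + Iv b v' x u y := by
  unfold Iv
  rw [← integral_add (die_int h1 h2 hb v x u y) (die_int h1 h2 hb v' x u y)]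
  congr 1
  funext w
  rw [← Finset.sum_add_distrib]
  refine Finset.sum_congr rfl fun m _ => ?_
  rw [← add_mul]
  congr 1
  simp only [Pv_pd h1 hb, Pi.add_apply, add_mul, Finset.sum_add_distrib]

theorem die_smul (h1 : ST_PHA) {b : ℝ} (hb : 0 < b) (t : ℝ) (v x u y : R3) :
    Iv b (t • v) x u y = t * Iv b v x u y := by
  unfold Iv
  rw [← integral_const_mul]
  congr 1
  funext w
  rw [Finset.mul_sum]
  refine Finset.sum_congr rfl fun m _ => ?_
  rw [← mul_assoc]
  congr 1
  simp only [Pv_pd h1 hb, Pi.smul_apply, smul_eq_mul, mul_assoc, ← Finset.mul_sum]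

theorem die_pos (h1 : ST_PHA) (h2 : ST_PHB) {b : ℝ} (hb : 0 < b) {n : ℕ}
    (a x : Fin n → R3) : 0 ≤ ∑ k, ∑ l, Iv b (a k) (x k) (a l) (x l) := by
  have e : ∑ k, ∑ l, Iv b (a k) (x k) (a l) (x l) =
      ∫ w, ∑ m, (∑ k, pd m (Pv b (a k) (x k)) w) ^ 2 := by
    have e1 : ∀ w, ∑ m, (∑ k, pd m (Pv b (a k) (x k)) w) ^ 2 =
        ∑ k, ∑ l, ∑ m, pd m (Pv b (a k) (x k)) w * pd m (Pv b (a l) (x l)) w := by
      intro w
      have e2 : ∀ m, (∑ k, pd m (Pv b (a k) (x k)) w) ^ 2 =
          ∑ k, ∑ l, pd m (Pv b (a k) (x k)) w * pd m (Pv b (a l) (x l)) w := by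
        intro m
        rw [pow_two, Finset.sum_mul_sum]
      rw [Finset.sum_congr rfl fun m _ => e2 m, Finset.sum_comm]
      refine Finset.sum_congr rfl fun k _ => ?_
      rw [Finset.sum_comm]
    simp_rw [e1]
    rw [integral_finsetSum _ fun k _ => integrable_finsetSum _ fun l _ =>
      die_int h1 h2 hb (a k) (x k) (a l) (x l)]
    refine Finset.sum_congr rfl fun k _ => ?_
    rw [integral_finsetSum _ fun l _ => die_int h1 h2 hb (a k) (x k) (a l) (x l)]
    rfl
  rw [e]
  exact integral_nonneg fun w => Finset.sum_nonneg fun m _ => sq_nonneg _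

theorem die_J (h1 : ST_PHA) (h2 : ST_PHB) (h3 : ST_PHC) {b : ℝ} (hb : 0 < b) {n : ℕ}
    (a x : Fin n → R3) (e : R3) (t : ℝ) :
    2 * t * ∑ k, ∑ l, Iv b (a k) (x k) e (x l) ≤
      ∑ k, ∑ l, EE b (e + t • a k) (x k) (e + t • a l) (x l) := by
  have hy := dip_young h1 h2 h3 hb (fun k => e + t • a k) x
  have p1 := die_pos h1 h2 hb (fun _ => e) x
  have p2 := die_pos h1 h2 hb a x
  have ex : ∀ k l, Iv b (e + t • a k) (x k) (e + t • a l) (x l) =
      Iv b e (x k) e (x l) + t * Iv b (a l) (x l) e (x k) + (t * Iv b (a k) (x k) e (x l) +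
        t * t * Iv b (a k) (x k) (a l) (x l)) := by
    intro k l
    rw [die_add h1 h2 hb, die_smul h1 hb, Iv_comm b e (x k) (e + t • a l), die_add h1 h2 hb,
      die_smul h1 hb, Iv_comm b (a k) (x k) (e + t • a l), die_add h1 h2 hb, die_smul h1 hb,
      Iv_comm b e (x l) e (x k), Iv_comm b e (x l) (a k) (x k), Iv_comm b (a l) (x l) (a k) (x k)]
    ring
  simp only [ex, Finset.sum_add_distrib, ← Finset.mul_sum] at hy
  have hJ' : ∑ k, ∑ l, Iv b (a l) (x l) e (x k) = ∑ k, ∑ l, Iv b (a k) (x k) e (x l) :=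
    Finset.sum_comm
  rw [hJ'] at hy
  have p3 : 0 ≤ t * t * ∑ k, ∑ l, Iv b (a k) (x k) (a l) (x l) :=
    mul_nonneg (mul_self_nonneg t) p2
  linarith

theorem Tq_sym (ξ v w : R3) : Tq ξ v w = Tq ξ w v := by
  unfold Tq
  simp only [Fin.sum_univ_three]
  ring

theorem Tq_zero (ξ v : R3) : Tq ξ v 0 = 0 := by
  unfold Tq
  simp

theorem DIE (h1 : ST_PHA) (h2 : ST_PHB) (h3 : ST_PHC) (h0 : ST_MVP) (h4 : ST_PCN) : ST_DIE := by
  intro d hd hd1
  have hb : 0 < d / 128 := by positivity
  obtain ⟨C, hC, hnear⟩ := dip_near h1 h2 h3 hb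
  have hkap : 0 < kap := h3.2.1
  refine ⟨2 * C / kap, by positivity, fun n M X x e a K hX hDist he ha hz => ?_⟩
  classical
  rcases Nat.eq_zero_or_pos n with hn | hn
  · subst hn
    have hr : Rem (d / 8) x = 0 := by simp [Rem]
    have hc : ∀ i, cnt X (3 / 2 * d) x i = 0 := fun i => by simp [cnt]
    simp [hr, hc]
  have hK0 : 0 ≤ K := (abs_nonneg _).trans (ha ⟨0, hn⟩ 0)
  set b := d / 128 with hbd
  -- the number of near pairs
  set P : ℝ := ∑ k, ∑ l, (if nr (x k - x l) < d / 32 then (1 : ℝ) else 0) with hP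
  have hPC : P ≤ n + d / 8 * Rem (d / 8) x := h4 d n M X x hd hDist
  have hPn : (n : ℝ) ≤ P := by
    have e1 : ∀ k : Fin n, (1 : ℝ) ≤ ∑ l, (if nr (x k - x l) < d / 32 then (1 : ℝ) else 0) := by
      intro k
      refine le_trans (le_of_eq ?_) (Finset.single_le_sum (f := fun l =>
        (if nr (x k - x l) < d / 32 then (1 : ℝ) else 0)) (fun l _ => by
          split_ifs <;> norm_num) (Finset.mem_univ k))
      have : nr (x k - x k) = 0 := by simp [nr]
      rw [this, if_pos (by positivity)]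
    calc (n : ℝ) = ∑ _k : Fin n, (1 : ℝ) := by simp
      _ ≤ P := Finset.sum_le_sum fun k _ => e1 k
  have hR0 : 0 ≤ Rem (d / 8) x := by
    have h : 0 ≤ d / 8 * Rem (d / 8) x := by linarith
    exact nonneg_of_mul_nonneg_right h (by positivity)
  have hPR : P ≤ n + Rem (d / 8) x := by
    have : d / 8 * Rem (d / 8) x ≤ 1 * Rem (d / 8) x :=
      mul_le_mul_of_nonneg_right (by linarith) hR0
    linarith
  -- near pairs
  set N : Fin n → Fin n → ℝ := fun k l =>
    ∑ i, (if nr (x k - X i) < 3 / 2 * d then (1:ℝ) else 0) *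
      (if nr (x l - X i) < 3 / 2 * d then 1 else 0) with hN
  have hN0 : ∀ k l, 0 ≤ N k l := fun k l => Finset.sum_nonneg fun i _ => by
    split_ifs <;> norm_num
  have hN1 : ∀ k l i, nr (x k - X i) ≤ d / 2 → nr (x l - X i) < 3 / 2 * d → 1 ≤ N k l := by
    intro k l i hk hl
    refine le_trans (le_of_eq ?_) (Finset.single_le_sum (f := fun i =>
      (if nr (x k - X i) < 3 / 2 * d then (1:ℝ) else 0) *
      (if nr (x l - X i) < 3 / 2 * d then 1 else 0)) (fun i _ => by
        split_ifs <;> norm_num) (Finset.mem_univ i))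
    rw [if_pos (by linarith), if_pos hl, one_mul]
  have hNs : ∑ k, ∑ l, N k l = ∑ i, cnt X (3 / 2 * d) x i ^ 2 := by
    have e1 : ∀ i, cnt X (3 / 2 * d) x i ^ 2 = ∑ k, ∑ l,
        (if nr (x k - X i) < 3 / 2 * d then (1:ℝ) else 0) *
        (if nr (x l - X i) < 3 / 2 * d then 1 else 0) := by
      intro i
      unfold cnt
      rw [pow_two, Finset.sum_mul_sum]
    rw [Finset.sum_congr rfl fun i _ => e1 i]
    calc ∑ k, ∑ l, N k l = ∑ k, ∑ i, ∑ l, (if nr (x k - X i) < 3 / 2 * d then (1:ℝ) else 0) *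
          (if nr (x l - X i) < 3 / 2 * d then 1 else 0) :=
          Finset.sum_congr rfl fun k _ => Finset.sum_comm
      _ = _ := Finset.sum_comm
  set F : Fin n → Fin n → ℝ := fun k l => ∑ i, (if nr (x k - X i) ≤ d / 2 then
      (if nr (x l - X i) < 3 / 2 * d then 0 else Tq (x k - x l) e (a k)) else 0) with hF
  have hS : ∑ i, ∑ k, (if nr (x k - X i) ≤ d / 2 then
      (∑ l, if nr (x l - X i) < 3 / 2 * d then 0 else Tq (x k - x l) e (a k)) else 0) =
      ∑ k, ∑ l, F k l := by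
    rw [Finset.sum_comm]
    refine Finset.sum_congr rfl fun k _ => ?_
    rw [hF]
    dsimp only
    rw [Finset.sum_comm]
    refine Finset.sum_congr rfl fun i _ => ?_
    split_ifs
    · rfl
    · simp
  rw [hS]
  have hcnt0 : 0 ≤ ∑ i, cnt X (3 / 2 * d) x i ^ 2 := Finset.sum_nonneg fun i _ => sq_nonneg _
  have hn0 : (0 : ℝ) ≤ n := Nat.cast_nonneg n
  rcases eq_or_lt_of_le hK0 with hK | hK
  · -- K = 0
    have ha0 : ∀ k, a k = 0 := by
      intro k
      funext m
      have := ha k m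
      rw [← hK] at this
      exact abs_nonpos_iff.1 this
    have : ∀ k l, F k l = 0 := by
      intro k l
      rw [hF]
      dsimp only
      refine Finset.sum_eq_zero fun i _ => ?_
      rw [ha0 k, Tq_zero]
      simp
    simp only [this, Finset.sum_const_zero, abs_zero]
    positivity
  -- K > 0
  have hI : ∀ k l, |Iv b (a k) (x k) e (x l)| ≤ C * K := by
    intro k l
    have e1 : Iv b (a k) (x k) e (x l) = K * Iv b (K⁻¹ • a k) (x k) e (x l) := by
      rw [die_smul h1 hb, ← mul_assoc, mul_inv_cancel₀ hK.ne', one_mul]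
    have e2 := (hnear (K⁻¹ • a k) (x k) e (x l) 1 (fun m => by
      rw [Pi.smul_apply, smul_eq_mul, abs_mul, abs_of_pos (inv_pos.2 hK), inv_mul_le_iff₀ hK]
      simpa using ha k m) he).1
    rw [e1, abs_mul, abs_of_pos hK]
    have := mul_le_mul_of_nonneg_left e2 hK.le
    linarith
  have hEE : ∀ s : ℝ, |s| ≤ K⁻¹ → ∑ k, ∑ l, EE b (e + s • a k) (x k) (e + s • a l) (x l) ≤
      4 * C * P := by
    intro s hs
    have hc : ∀ k m, |(e + s • a k) m| ≤ 2 := by
      intro k m
      rw [Pi.add_apply, Pi.smul_apply, smul_eq_mul]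
      refine (abs_add_le _ _).trans ?_
      rw [abs_mul]
      have e1 : |s| * |a k m| ≤ K⁻¹ * K := mul_le_mul hs (ha k m) (abs_nonneg _) (by positivity)
      rw [inv_mul_cancel₀ hK.ne'] at e1
      have := he m
      linarith
    rw [hP, Finset.mul_sum]
    refine Finset.sum_le_sum fun k _ => ?_
    rw [Finset.mul_sum]
    refine Finset.sum_le_sum fun l _ => ?_
    by_cases hkl : nr (x k - x l) < d / 32
    · rw [if_pos hkl]
      have := (abs_le.1 (hnear (e + s • a k) (x k) (e + s • a l) (x l) 2 (hc k) (hc l)).2).2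
      linarith
    · rw [if_neg hkl, EE_far h3 hb _ _ _ _ (by rw [hbd]; linarith), mul_zero]
  obtain ⟨J, hJ⟩ : ∃ J, J = ∑ k, ∑ l, Iv b (a k) (x k) e (x l) := ⟨_, rfl⟩
  have hJb : |J| ≤ 2 * C * K * P := by
    have j1 := (die_J h1 h2 h3 hb a x e K⁻¹).trans
      (hEE K⁻¹ (by rw [abs_of_pos (inv_pos.2 hK)]))
    have j2 := (die_J h1 h2 h3 hb a x e (-K⁻¹)).trans
      (hEE (-K⁻¹) (by rw [abs_neg, abs_of_pos (inv_pos.2 hK)]))
    rw [← hJ] at j1 j2
    have e1 : K * (2 * K⁻¹ * J) = 2 * J := by field_simp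
    have e2 : K * (2 * (-K⁻¹) * J) = -(2 * J) := by field_simp
    have j3 := mul_le_mul_of_nonneg_left j1 hK.le
    have j4 := mul_le_mul_of_nonneg_left j2 hK.le
    rw [e1] at j3
    rw [e2] at j4
    rw [abs_le]
    constructor <;> linarith
  have hkl : ∀ k l, |kap * F k l + Iv b (a k) (x k) e (x l)| ≤ C * K * N k l := by
    intro k l
    have hCK : 0 ≤ C * K := by positivity
    by_cases hak : a k = 0
    · have e1 : F k l = 0 := by
        rw [hF]
        dsimp only
        refine Finset.sum_eq_zero fun i _ => ?_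
        rw [hak, Tq_zero]
        simp
      rw [e1, hak, Iv_zero1 h1 hb, mul_zero, add_zero, abs_zero]
      exact mul_nonneg hCK (hN0 k l)
    · have hex : ∃ i, nr (x k - X i) ≤ d / 2 := by
        by_contra h
        push Not at h
        exact hak (hz k h)
      obtain ⟨i, hi⟩ := hex
      have e1 : F k l = if nr (x l - X i) < 3 / 2 * d then 0 else Tq (x k - x l) e (a k) := by
        rw [hF]
        dsimp only
        rw [Finset.sum_eq_single i, if_pos hi]
        · intro j _ hj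
          rw [if_neg]
          intro h
          have s1 := hX j i hj
          have s2 := nr_tri (X j) (x k) (X i)
          rw [nr_comm (X j) (x k)] at s2
          linarith
        · intro h
          exact absurd (Finset.mem_univ i) h
      by_cases hl : nr (x l - X i) < 3 / 2 * d
      · rw [e1, if_pos hl, mul_zero, zero_add]
        refine (hI k l).trans ?_
        have := mul_le_mul_of_nonneg_left (hN1 k l i hi hl) hCK
        linarith
      · rw [e1, if_neg hl]
        have s2 := nr_tri (x l) (x k) (X i)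
        rw [nr_comm (x l) (x k)] at s2
        have s3 : 2 * b < nr (x k - x l) := by
          rw [hbd]
          push Not at hl
          linarith
        rw [dip_pair h0 h1 h2 h3 hb (a k) (x k) e (x l) s3, Tq_sym (x k - x l) (a k) e]
        have : kap * Tq (x k - x l) e (a k) + -(kap * Tq (x k - x l) e (a k)) = 0 := by ring
        rw [this, abs_zero]
        exact mul_nonneg hCK (hN0 k l)
  have hsum : |kap * (∑ k, ∑ l, F k l) + J| ≤ C * K * ∑ i, cnt X (3 / 2 * d) x i ^ 2 := by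
    rw [← hNs, hJ, Finset.mul_sum, ← Finset.sum_add_distrib, Finset.mul_sum]
    refine (Finset.abs_sum_le_sum_abs _ _).trans (Finset.sum_le_sum fun k _ => ?_)
    rw [Finset.mul_sum, ← Finset.sum_add_distrib, Finset.mul_sum]
    exact (Finset.abs_sum_le_sum_abs _ _).trans (Finset.sum_le_sum fun l _ => hkl k l)
  obtain ⟨S, hSS⟩ : ∃ S, S = ∑ k, ∑ l, F k l := ⟨_, rfl⟩
  rw [← hSS] at hsum ⊢
  have f1 : kap * |S| ≤ C * K * (∑ i, cnt X (3 / 2 * d) x i ^ 2) + 2 * C * K * P := by
    have : kap * |S| = |kap * S| := by rw [abs_mul, abs_of_pos hkap]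
    rw [this]
    have t1 : |kap * S| ≤ |kap * S + J| + |J| := by
      have := abs_sub (kap * S + J) J
      simpa using this
    linarith
  have f2 : 2 * C * K * P ≤ 2 * C * K * (n + Rem (d / 8) x) :=
    mul_le_mul_of_nonneg_left hPR (by positivity)
  have f3 : C * K * (∑ i, cnt X (3 / 2 * d) x i ^ 2) ≤
      2 * C * K * (∑ i, cnt X (3 / 2 * d) x i ^ 2) :=
    mul_le_mul_of_nonneg_right (by nlinarith) hcnt0
  rw [div_mul_eq_mul_div, div_mul_eq_mul_div, le_div_iff₀ hkap]
  linarith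

end Pool.Agent.Helper64.HW
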