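import Pool.Agent.Helper26.HW.Stmts
import Pool.Agent.Helper64.HV.PRZ

set_option autoImplicit false

namespace Pool.Agent.Helper64.HW

open MeasureTheory Filter Pool.Agent.Helper95.PW Pool.Agent.Helper95.LN Pool.Agent.Helper95.CF
open Pool.Agent.Helper95.HV Pool.Agent.Helper95 Pool.Agent.Helper26.HW Pool.Agent.Helper64.HV

theorem PRZ0 (h1 : ST_MRZ0) (h3 : ST_TUPZ) (_h4 : ST_LIMG) (h5 : ST_CUT)
    (h6 : ST_FLD) (h7 : ST_APXM) (h8 : ST_LMTM) (h9 : ST_QHM) (h10 : ST_INTM)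
    (h11 : ST_POTB) : ST_PRZ0 := by
  intro d hd hd1
  obtain ⟨C1, hC1, H1⟩ := h1 d hd hd1
  obtain ⟨C3, hC3, H3⟩ := h3 d hd hd1
  obtain ⟨K, hK, H5, -⟩ := h5
  obtain ⟨K', hK', H6⟩ := h6
  refine ⟨C1 * (C3 + (1 + C1 + C1 * C3) + 1), by positivity, ?_⟩
  intro z E n M X Z φ G m hD hM hE hG
  have hz1 : 1 ≤ z := hD.z1
  have hz0 : 0 < z := by linarith
  have hZ0 := hD.nuc.1
  have hM1 : (1 : ℝ) ≤ M := by exact_mod_cast hM
  have hn0 : (0 : ℝ) ≤ n := Nat.cast_nonneg n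
  have hnM : (n : ℝ) ≤ z * M := by
    rw [← hD.nuc.2]
    calc ∑ j, Z j ≤ ∑ _j : Fin M, z := Finset.sum_le_sum fun j _ => hD.le j
      _ = z * M := by simp [mul_comm]
  obtain ⟨Cp, hCp, HP⟩ := h11 z d hz0.le hd
  obtain ⟨u, hu⟩ := h7 n M X Z E φ G hG
  obtain ⟨l1, -, l3⟩ := h8 n M X Z E φ G u hG hu
  obtain ⟨hsm, _, _, ⟨M0, hM0⟩, hres⟩ := hu
  obtain ⟨a, ha⟩ : ∃ a : ℝ, a = z ^ (7 / 3 : ℝ) := ⟨_, rfl⟩
  have ha1 : 1 ≤ a := by rw [ha]; exact Real.one_le_rpow hz1 (by norm_num)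
  have hza : z ^ 2 ≤ a := by
    rw [ha, ← Real.rpow_natCast z 2]
    exact Real.rpow_le_rpow_of_exponent_le hz1 (by norm_num)
  have hz10 : z ^ (10 / 3 : ℝ) = z * a := by
    rw [ha, show (10 / 3 : ℝ) = 1 + 7 / 3 by norm_num, Real.rpow_add hz0, Real.rpow_one]
  obtain ⟨T0, hT0⟩ : ∃ T0 : ℝ, T0 = C3 * (M * a) := ⟨_, rfl⟩
  have hT0n : 0 ≤ T0 := by rw [hT0]; positivity
  obtain ⟨Y0, hY0⟩ : ∃ Y0 : ℝ, Y0 = 1 + C1 * (z ^ 2 * M + T0) := ⟨_, rfl⟩
  obtain ⟨P1, hP1⟩ : ∃ P1 : ℝ, P1 = Cp * (T0 + n * (M : ℝ) ^ (2 / 3 : ℝ)) := ⟨_, rfl⟩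
  have hP1n : 0 ≤ P1 := by rw [hP1]; positivity
  obtain ⟨P0, hP0⟩ : ∃ P0 : ℝ, P0 = 2 * P1 + 1 := ⟨_, rfl⟩
  obtain ⟨g0, hg0⟩ : ∃ g0 : R3 → ℝ, g0 = gN X m (d / 8) := ⟨_, rfl⟩
  have hfld := (H6 M X d (d / 8) (d / 8) m hd hD.sep (by positivity) le_rfl (by linarith)).1
  rw [← hg0] at hfld
  have hE0 : E ≤ 0 := by
    have := prz_nucR_nonneg X Z hZ0
    linarith
  have key : ∀ᶠ L : ℕ in atTop, PW.sq (PG (fun y => gm m ((L : ℝ) + 1) y - g0 y) φ G) ^ 2 ≤
      C1 * (n * (T0 + Y0 + z * n + P0 / ((L : ℝ) + 1))) := by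
    have hLt : Tendsto (fun L : ℕ => (L : ℝ) + 1) atTop atTop :=
      tendsto_natCast_atTop_atTop.atTop_add tendsto_const_nhds
    have hL0 : ∀ᶠ L : ℕ in atTop, ∀ j, 2 * nr (X j) + 4 ≤ (L : ℝ) + 1 := by
      rw [Filter.eventually_all]
      intro j
      exact hLt.eventually_ge_atTop _
    filter_upwards [hL0] with L hL
    have hLp : (1 : ℝ) ≤ (L : ℝ) + 1 := by
      have : (0 : ℝ) ≤ L := Nat.cast_nonneg L
      linarith
    have hLp0 : (0 : ℝ) < (L : ℝ) + 1 := by linarith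
    obtain ⟨B, hB⟩ : ∃ B : ℝ, B = T0 + P0 + |M0| := ⟨_, rfl⟩
    obtain ⟨C', hC', HM⟩ := H1 z ((L : ℝ) + 1) B E n M X Z hD hG.low hLp hL
    have hevj : ∀ᶠ j in atTop,
        PW.sq (fun s => Pg (fun y => gm m ((L : ℝ) + 1) y - g0 y) (u j s)) ^ 2 ≤
        C1 * (n * (T0 + Y0 + z * n + P0 / ((L : ℝ) + 1))) +
          C' * Real.sqrt (resM X Z E (u j)) := by
      have e1 : ∀ᶠ j in atTop, PW.sq (u j) ≤ 2 :=
        l1.eventually_le_const (by norm_num : (1 : ℝ) < 2)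
      have e2 : ∀ᶠ j in atTop, resM X Z E (u j) ≤ 1 / 2 :=
        hres.eventually_le_const (by norm_num : (0 : ℝ) < 1 / 2)
      filter_upwards [e1, e2] with j hj1 hj2
      obtain ⟨k1, k2⟩ := H3 z E n M X Z (u j) hD hM hE (hsm j).1 (hsm j).2 hj1 hj2
      rw [← ha, ← hT0] at k1 k2
      have p0 := com_sq_nonneg (u j)
      have p1 := com_kin_nonneg (u j)
      have p2 := com_pair_nonneg (u j)
      have p3 : 0 ≤ one (pot X Z) (u j) :=
        com_one_nonneg _ (innm_pot_nonneg X Z hZ0) _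
      have hQ := innm_Q_le h9 h10 X Z E (u j) (hsm j).1
      have hQ1 := innm_Q_le_one h9 h10 X Z E (u j) (hsm j).1 hE0 hj1 hj2
      have hEn : (E + nucR X Z) * PW.sq (u j) ≤ 0 := mul_nonpos_of_nonpos_of_nonneg hE p0
      have hYY : YY C1 d z X Z (u j) ≤ Y0 := by
        unfold YY
        rw [hY0]
        have : C1 * (z ^ 2 * M + z * one (near1 X d) (u j)) ≤ C1 * (z ^ 2 * M + T0) :=
          mul_le_mul_of_nonneg_left (by linarith) hC1.le
        linarith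
      have q1 : one (pot X Z) (u j) ≤ P1 := by
        refine (HP n M X Z (u j) hM hD.sep hZ0 hD.le (hsm j).1 hj1).trans ?_
        rw [hP1]
        exact mul_le_mul_of_nonneg_left (by linarith) hCp.le
      have q2 : pair (u j) ≤ P1 + 1 := by
        unfold QM at hQ1
        linarith
      have hM2 := le_abs_self M0
      have hM3 := abs_nonneg M0
      have hM4 := hM0 j
      have hb := HM (u j) (hsm j).1 (hsm j).2 hj1 (by linarith) (by linarith) (by linarith)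
        (by linarith) (by linarith) m
      rw [← hg0] at hb
      refine hb.trans (add_le_add ?_ le_rfl)
      refine mul_le_mul_of_nonneg_left (mul_le_mul_of_nonneg_left ?_ hn0) hC1.le
      have b1 : (pair (u j) + one (pot X Z) (u j)) / ((L : ℝ) + 1) ≤ P0 / ((L : ℝ) + 1) :=
        div_le_div_of_nonneg_right (by linarith) hLp0.le
      linarith
    have hgs : ContDiff ℝ (⊤ : ℕ∞) (fun y => gm m ((L : ℝ) + 1) y - g0 y) :=
      (H5 m _ hLp0).1.sm.sub hfld.sm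
    have hgc : HasCompactSupport (fun y => gm m ((L : ℝ) + 1) y - g0 y) :=
      (H5 m _ hLp0).1.cs.sub hfld.cs
    have lim1 := (l3 _ hgs hgc).pow 2
    have lr : Tendsto (fun j => Real.sqrt (resM X Z E (u j))) atTop (nhds 0) := by
      have := hres.sqrt
      rwa [Real.sqrt_zero] at this
    have lim2 := (lr.const_mul C').const_add
      (C1 * (n * (T0 + Y0 + z * n + P0 / ((L : ℝ) + 1))))
    have hfin := le_of_tendsto_of_tendsto lim1 lim2 hevj
    rwa [mul_zero, add_zero] at hfin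
  have hlap : ∀ y, |lap g0 y| ≤ K' * (1 + 3 / (d / 8)) := by
    intro y
    unfold lap
    refine (Finset.abs_sum_le_sum_abs _ _).trans ?_
    refine (Finset.sum_le_card_nsmul _ _ (K' / (d / 8)) fun i _ => hfld.d2 i i y).trans ?_
    have e1 : 0 ≤ K' / (d / 8) := by positivity
    have e2 : K' * (1 + 3 / (d / 8)) = K' + 3 * (K' / (d / 8)) := by ring
    rw [e2]
    simp
    linarith
  have hpd : ∀ i y, |pd i g0 y| ≤ K' * (1 + 3 / (d / 8)) := by
    intro i y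
    refine (hfld.d1 i y).trans ?_
    have e1 : 0 ≤ K' / (d / 8) := by positivity
    have e2 : K' * (1 + 3 / (d / 8)) = K' + 3 * (K' / (d / 8)) := by ring
    rw [e2]
    linarith
  have lim1 := (prz_lim φ G hG.lp hG.lpG m K (K' * (1 + 3 / (d / 8))) (by linarith)
    (fun m R hR => ⟨(H5 m R hR).1, (H5 m R hR).2.1⟩) g0 hfld.sm (by positivity) hpd hlap).pow 2
  have hLt : Tendsto (fun L : ℕ => (L : ℝ) + 1) atTop atTop :=
    tendsto_natCast_atTop_atTop.atTop_add tendsto_const_nhds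
  have lim2 := ((((hLt.const_div_atTop P0).const_add
    (T0 + Y0 + z * n)).const_mul (n : ℝ)).const_mul C1)
  have hfin := le_of_tendsto_of_tendsto lim1 lim2 key
  rw [add_zero] at hfin
  rw [← hg0, hz10]
  refine hfin.trans ?_
  have hMa : 1 ≤ M * a := by nlinarith
  have c1 : T0 ≤ C3 * (M * a) := by rw [hT0]
  have c2 : Y0 ≤ (1 + C1 + C1 * C3) * (M * a) := by
    rw [hY0]
    have d1 : z ^ 2 * M ≤ M * a := by
      have : z ^ 2 * M ≤ a * M := mul_le_mul_of_nonneg_right hza (by linarith)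
      linarith
    have d2 := mul_le_mul_of_nonneg_left (add_le_add d1 c1) hC1.le
    linarith
  have c3 : z * n ≤ M * a := by
    have d1 : z * n ≤ z * (z * M) := mul_le_mul_of_nonneg_left hnM (by positivity)
    have d2 : z * (z * M) = z ^ 2 * M := by ring
    have d3 : z ^ 2 * M ≤ a * M := mul_le_mul_of_nonneg_right hza (by positivity)
    linarith
  have c4 : T0 + Y0 + z * n ≤ (C3 + (1 + C1 + C1 * C3) + 1) * (M * a) := by linarith
  have c5 : (n : ℝ) * (T0 + Y0 + z * n) ≤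
      z * M * ((C3 + (1 + C1 + C1 * C3) + 1) * (M * a)) := by
    refine mul_le_mul hnM c4 ?_ (by positivity)
    have : 0 ≤ Y0 := by rw [hY0]; positivity
    positivity
  have c6 := mul_le_mul_of_nonneg_left c5 hC1.le
  refine c6.trans (le_of_eq ?_)
  ring

end Pool.Agent.Helper64.HW
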